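import Pool.Agent.H40.ISH.Stmts

set_option linter.unusedVariables false

namespace Pool.ISH

open MeasureTheory Filter Topology
open scoped Classical Pointwise

theorem gam_out {N : ℕ} {A : Finset Site} {b : Bond} (hb : b ∉ BV N) :
    b ∈ bd (Pl N A) ↔ b.2 = 2 ∧ b.1 2 = 0 := by
  rw [mem_BV, not_or] at hb
  have h1 : lo b ∈ Pl N A ↔ lo b 2 ≤ 0 := by simp [Pl, hb.1]
  have h2 : hi b ∈ Pl N A ↔ hi b 2 ≤ 0 := by simp [Pl, hb.2]
  rw [mem_bd, h1, h2]
  by_cases h : b.2 = 2
  · have h3 := hi_same b
    rw [h] at h3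
    rw [h3]
    have h4 : lo b 2 = b.1 2 := rfl
    rw [h4]
    constructor
    · intro h5
      exact ⟨h, by omega⟩
    · intro h5
      omega
  · have h3 := hi_ne (b := b) (j := 2) (Ne.symm h)
    rw [h3]
    constructor
    · intro h5
      exact absurd Iff.rfl h5
    · intro h5
      exact absurd h5.1 h

theorem int_walk {p : ℤ → Prop} (a : ℤ) (h0 : p a) (h1 : ∀ t, p t → p (t + 1))
    (h2 : ∀ t, p t → p (t - 1)) : ∀ t, p t := by
  intro t
  refine Int.inductionOn' (motive := p) t a h0 (fun k _ hk => h1 k hk) (fun k _ hk => h2 k hk)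

/-- the vertical bond at height 0 in the column (u,v) -/
def ob (u v : ℤ) : Bond := (![u, v, 0], 2)

theorem ob_tch {u v u' v' : ℤ} (hu : |u - u'| ≤ 1) (hv : |v - v'| ≤ 1) : Tch (ob u v) (ob u' v') := by
  have e : ∀ w w' : ℤ, hi (ob w w') = ![w, w', 1] := by
    intro w w'
    funext i
    fin_cases i <;> simp [hi, ob, ev, Pi.single_apply]
  have e' : ∀ w w' : ℤ, lo (ob w w') = ![w, w', 0] := fun w w' => rfl
  refine ⟨?_, ?_, ?_, ?_⟩ <;> intro i <;> rw [abs_le] at * <;>
    simp only [e, e'] <;> fin_cases i <;> simp <;> omega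

theorem ob_notMem {N : ℕ} {u v : ℤ} (h : (N : ℤ) < |u| ∨ (N : ℤ) < |v|) : ob u v ∉ BV N := by
  rw [mem_BV, mem_Vb, mem_Vb, not_or]
  constructor
  · intro h1
    have h2 := h1 0
    have h3 := h1 1
    simp only [lo, ob, Matrix.cons_val_zero, Matrix.cons_val_one] at h2 h3
    omega
  · intro h1
    have h2 := h1 0
    have h3 := h1 1
    simp [hi, ob, ev, Pi.single_apply] at h2 h3
    omega

theorem ob_mem_Gam (N : ℕ) (A : Finset Site) (u v : ℤ) (h : (N : ℤ) < |u| ∨ (N : ℤ) < |v|) :
    ob u v ∈ Gam N A := by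
  have step : ∀ u v u' v' : ℤ, ob u v ∈ Gam N A → |u - u'| ≤ 1 → |v - v'| ≤ 1 →
      ((N : ℤ) < |u'| ∨ (N : ℤ) < |v'|) → ob u' v' ∈ Gam N A := by
    intro u v u' v' h1 h2 h3 h4
    refine Relation.ReflTransGen.tail h1 ⟨ob_tch h2 h3, ?_⟩
    rw [gam_out (ob_notMem h4)]
    exact ⟨rfl, by simp [ob]⟩
  have hN : (N : ℤ) < |(N : ℤ) + 1| := by
    rw [abs_of_nonneg (by positivity)]; omega
  have g1 : ∀ v, ob ((N : ℤ) + 1) v ∈ Gam N A := by
    refine int_walk 0 ?_ ?_ ?_
    · exact Relation.ReflTransGen.refl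
    · intro t ht
      exact step _ _ _ _ ht (by simp) (by simp) (Or.inl hN)
    · intro t ht
      exact step _ _ _ _ ht (by simp) (by simp) (Or.inl hN)
  have g2 : ∀ v, (N : ℤ) < |v| → ∀ u, ob u v ∈ Gam N A := by
    intro v hv
    refine int_walk ((N : ℤ) + 1) (g1 v) ?_ ?_
    · intro t ht
      exact step _ _ _ _ ht (by simp) (by simp) (Or.inr hv)
    · intro t ht
      exact step _ _ _ _ ht (by simp) (by simp) (Or.inr hv)
  have g3 : ∀ u, (N : ℤ) < |u| → ∀ v, ob u v ∈ Gam N A := by
    intro u hu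
    refine int_walk ((N : ℤ) + 1) (g2 _ hN u) ?_ ?_
    · intro t ht
      exact step _ _ _ _ ht (by simp) (by simp) (Or.inl hu)
    · intro t ht
      exact step _ _ _ _ ht (by simp) (by simp) (Or.inl hu)
  rcases h with h | h
  · exact g3 u h v
  · exact g2 v h u

theorem rt_eq (N : ℕ) : rt N = ob ((N : ℤ) + 1) 0 := rfl

theorem rt_mem_bd (N : ℕ) (A : Finset Site) : rt N ∈ bd (Pl N A) := by
  rw [rt_eq, gam_out (ob_notMem (Or.inl (by rw [abs_of_nonneg (by positivity)]; omega)))]
  exact ⟨rfl, by simp [ob]⟩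

theorem Gam_sub (N : ℕ) (A : Finset Site) : Gam N A ⊆ bd (Pl N A) :=
  fun b hb => Rch.mem hb (rt_mem_bd N A)

theorem Gam_closed (N : ℕ) (A : Finset Site) : ∀ b ∈ Gam N A, ∀ c ∈ bd (Pl N A), Tch b c →
    c ∈ Gam N A := fun b hb c hc h => Relation.ReflTransGen.tail hb ⟨h, hc⟩

theorem Rch_self {S : Set Bond} {r b : Bond} (h : Rch S r b) : Rch {c | Rch S r c} r b := by
  induction h with
  | refl => exact Relation.ReflTransGen.refl
  | @tail d e h1 h2 ih => exact Relation.ReflTransGen.tail ih ⟨h2.1, Relation.ReflTransGen.tail h1 h2⟩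

/-- the bond above the site -/
theorem col_eq {b : Bond} (h2 : b.2 = 2) : b = (![b.1 0, b.1 1, b.1 2], 2) := by
  obtain ⟨x, i⟩ := b
  simp only at h2
  subst h2
  congr 1
  funext j
  fin_cases j <;> rfl

theorem vert_height {N : ℕ} {A : Finset Site} {b : Bond} (hb : b ∈ bd (Pl N A)) (h2 : b.2 = 2) :
    -(N : ℤ) - 1 ≤ b.1 2 ∧ b.1 2 ≤ N := by
  by_cases h : b ∈ BV N
  · rw [mem_BV, mem_Vb, mem_Vb] at h
    rcases h with h | h
    · have := h 2
      change |b.1 2| ≤ _ at this
      rw [abs_le] at this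
      omega
    · have := h 2
      have h3 := hi_same b
      rw [h2] at h3
      rw [h3] at this
      change |b.1 2 + 1| ≤ _ at this
      rw [abs_le] at this
      omega
  · have := (gam_out h).1 hb
    omega

theorem hor_mem {N : ℕ} {A : Finset Site} {b : Bond} (hb : b ∈ bd (Pl N A)) (h2 : b.2 ≠ 2) :
    b ∈ BV N := by
  by_contra h
  exact h2 ((gam_out h).1 hb).1

theorem hor_height {N : ℕ} {b : Bond} (hb : b ∈ BV N) (h2 : b.2 ≠ 2) : |b.1 2| ≤ N := by
  rw [mem_BV, mem_Vb, mem_Vb] at hb
  rcases hb with h | h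
  · exact h 2
  · have := h 2
    rw [hi_ne (Ne.symm h2)] at this
    exact this

theorem gam (h1 : SQEStmt) (h2 : BELStmt) : GAMStmt := by
  intro N A
  have hsq : SqEven (Gam N A) := h1 _ _ (Gam_sub N A) (Gam_closed N A)
  have hbd : bd (Dp N A) = Gam N A := by
    refine h2 _ hsq ?_ ?_
    · intro x
      refine ((Finset.image (fun h : ℤ => ((![x 0, x 1, h], 2) : Bond))
        (Finset.Icc (-(N : ℤ) - 1) N)).finite_toSet).subset ?_
      rintro b ⟨hb, hb2, hb0, hb1, -⟩
      have := vert_height (Gam_sub N A hb) hb2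
      rw [Finset.coe_image]
      refine ⟨b.1 2, by simpa using this, ?_⟩
      rw [col_eq hb2, hb0, hb1]
      rfl
    · intro x
      refine ⟨-(N : ℤ), fun b hb hb2 _ _ => ?_⟩
      have := hor_height (hor_mem (Gam_sub N A hb) hb2) hb2
      rw [abs_le] at this
      exact this.1
  -- columns outside of the box
  have hcol : ∀ x : Site, ((N : ℤ) < |x 0| ∨ (N : ℤ) < |x 1|) → (x ∈ Dp N A ↔ x 2 ≤ 0) := by
    intro x hx
    have hset : {b : Bond | b ∈ Gam N A ∧ b.2 = 2 ∧ b.1 0 = x 0 ∧ b.1 1 = x 1 ∧ b.1 2 < x 2} =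
        if 0 < x 2 then {ob (x 0) (x 1)} else ∅ := by
      ext b
      simp only [Set.mem_ofPred_eq]
      constructor
      · rintro ⟨hb, hb2, hb0, hb1, hb3⟩
        have hnot : b ∉ BV N := by
          rw [mem_BV, mem_Vb, mem_Vb, not_or]
          constructor
          · intro h
            have e0 := h 0
            have e1 := h 1
            change |b.1 0| ≤ _ at e0
            change |b.1 1| ≤ _ at e1
            rw [hb0] at e0
            rw [hb1] at e1
            omega
          · intro h
            have e0 := h 0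
            have e1 := h 1
            rw [hi_ne (by rw [hb2]; decide)] at e0 e1
            change |b.1 0| ≤ _ at e0
            change |b.1 1| ≤ _ at e1
            rw [hb0] at e0
            rw [hb1] at e1
            omega
        have hz := ((gam_out hnot).1 (Gam_sub N A hb)).2
        rw [if_pos (by omega)]
        rw [Set.mem_singleton_iff, col_eq hb2, hb0, hb1, hz]
        rfl
      · intro hb
        by_cases hx2 : 0 < x 2
        · rw [if_pos hx2, Set.mem_singleton_iff] at hb
          subst hb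
          exact ⟨ob_mem_Gam N A _ _ hx, rfl, rfl, rfl, hx2⟩
        · rw [if_neg hx2] at hb
          exact absurd hb (Set.notMem_empty _)
    change Even (Set.ncard {b : Bond | b ∈ Gam N A ∧ b.2 = 2 ∧ b.1 0 = x 0 ∧ b.1 1 = x 1 ∧
      b.1 2 < x 2}) ↔ _
    rw [hset]
    by_cases hx2 : 0 < x 2
    · rw [if_pos hx2, Set.ncard_singleton]
      simp only [Nat.not_even_one, false_iff, not_le]
      exact hx2
    · rw [if_neg hx2, Set.ncard_empty]
      simp only [Even.zero, true_iff]
      omega
  have hout : ∀ x, x ∉ Vb N → (x ∈ Dp N A ↔ x 2 ≤ 0) := by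
    intro x hx
    by_cases h01 : (N : ℤ) < |x 0| ∨ (N : ℤ) < |x 1|
    · exact hcol x h01
    · have hx2 : (N : ℤ) < |x 2| := by
        by_contra hcon
        apply hx
        rw [mem_Vb]
        intro i
        fin_cases i
        · simp only [Fin.zero_eta]; omega
        · simp only [Fin.mk_one]; omega
        · simp only [Fin.reduceFinMk]; omega
      -- move horizontally
      have hmove : ∀ u : ℤ, ((![u, x 1, x 2] : Site) ∈ Dp N A ↔ (![u + 1, x 1, x 2] : Site) ∈ Dp N A) := by
        intro u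
        have hb : ((![u, x 1, x 2], 0) : Bond) ∉ bd (Dp N A) := by
          rw [hbd]
          intro hb
          have h3 := hor_height (hor_mem (Gam_sub N A hb) (by simp)) (by simp)
          simp at h3
          omega
        rw [mem_bd, not_not] at hb
        have e : hi ((![u, x 1, x 2], 0) : Bond) = ![u + 1, x 1, x 2] := by
          funext i
          fin_cases i <;> simp [hi, ev, Pi.single_apply]
        rw [e] at hb
        exact hb
      have hall : ∀ u : ℤ, ((![u, x 1, x 2] : Site) ∈ Dp N A ↔ x 2 ≤ 0) := by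
        refine int_walk ((N : ℤ) + 1) ?_ ?_ ?_
        · have := hcol ![(N : ℤ) + 1, x 1, x 2] (Or.inl (by
            simp only [Matrix.cons_val_zero]
            rw [abs_of_nonneg (by positivity)]; omega))
          exact this
        · intro t ht
          rw [← hmove t]; exact ht
        · intro t ht
          have := hmove (t - 1)
          rw [sub_add_cancel] at this
          rw [this]; exact ht
      have hx' : x = ![x 0, x 1, x 2] := by
        funext i
        fin_cases i <;> rfl
      rw [hx']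
      exact hall (x 0)
  refine ⟨Gam_sub N A, hbd, hout, ?_, ?_⟩
  · intro b hb c hc
    rw [hbd] at hb hc ⊢
    have e1 : Rch (Gam N A) (rt N) b := Rch_self hb
    have e2 : Rch (Gam N A) (rt N) c := Rch_self hc
    exact (e1.symm (Relation.ReflTransGen.refl : Rch (bd (Pl N A)) (rt N) (rt N))).trans e2
  · intro r
    refine ⟨ob ((max N r : ℕ) + 1) 0, ?_, ?_⟩
    · rw [hbd]
      apply ob_mem_Gam
      left
      rw [abs_of_nonneg (by positivity)]
      push_cast
      have := le_max_left (N : ℤ) r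
      omega
    · intro h
      have := (mem_Qb.1 h) 0
      simp only [lo, ob, Matrix.cons_val_zero, Pi.zero_apply, sub_zero] at this
      rw [abs_of_nonneg (by positivity)] at this
      push_cast at this
      have := le_max_right (N : ℤ) r
      omega

end Pool.ISH
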