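import Pool.Agent.H40.ISH.Stmts

set_option linter.unusedVariables false

namespace Pool.ISH

open MeasureTheory Filter Topology
open scoped Classical Pointwise

theorem int_int_walk {p : ℤ → Prop} (a : ℤ) (h0 : p a) (h1 : ∀ t, p t → p (t + 1))
    (h2 : ∀ t, p t → p (t - 1)) : ∀ t, p t := by
  intro t
  refine Int.inductionOn' (motive := p) t a h0 (fun k _ hk => h1 k hk) (fun k _ hk => h2 k hk)

theorem int (h2 : BELStmt) : INTStmt := by
  intro N γ hγ hsq hconn
  have hbd : bd (Bel (γ : Set Bond)) = (γ : Set Bond) := by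
    refine h2 _ hsq ?_ ?_
    · intro x
      exact γ.finite_toSet.subset (fun b hb => hb.1)
    · intro x
      refine ⟨-(N : ℤ) - 1, fun b hb hb2 _ _ => ?_⟩
      have := mem_BV.1 (hγ hb)
      rw [mem_Vb, mem_Vb] at this
      rcases this with h | h
      · have h3 := h 2
        change |b.1 2| ≤ _ at h3
        rw [abs_le] at h3
        omega
      · have h3 := h 2
        rw [hi_ne (Ne.symm hb2)] at h3
        change |b.1 2| ≤ _ at h3
        rw [abs_le] at h3
        omega
  -- vertical bonds of the box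
  have hvert : ∀ b ∈ γ, b.2 = 2 → |b.1 0| ≤ N ∧ |b.1 1| ≤ N ∧ -(N : ℤ) - 1 ≤ b.1 2 := by
    intro b hb hb2
    have := mem_BV.1 (hγ hb)
    rw [mem_Vb, mem_Vb] at this
    rcases this with h | h
    · have h3 := h 2
      change |b.1 2| ≤ _ at h3
      rw [abs_le] at h3
      exact ⟨h 0, h 1, by omega⟩
    · have e0 := h 0
      have e1 := h 1
      have e2 := h 2
      rw [hi_ne (by rw [hb2]; decide)] at e0 e1
      have h3 := hi_same b
      rw [hb2] at h3
      rw [h3] at e2
      change |b.1 2 + 1| ≤ _ at e2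
      rw [abs_le] at e2
      exact ⟨e0, e1, by omega⟩
  -- sites without bonds below
  have hnone : ∀ x : Site, ((N : ℤ) < |x 0| ∨ (N : ℤ) < |x 1| ∨ x 2 < -(N : ℤ)) →
      x ∈ Bel (γ : Set Bond) := by
    intro x hx
    have hset : {b : Bond | b ∈ (γ : Set Bond) ∧ b.2 = 2 ∧ b.1 0 = x 0 ∧ b.1 1 = x 1 ∧
        b.1 2 < x 2} = ∅ := by
      rw [Set.eq_empty_iff_forall_notMem]
      rintro b ⟨hb, hb2, hb0, hb1, hb3⟩
      have := hvert b hb hb2
      rw [hb0, hb1] at this
      omega
    change Even (Set.ncard _)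
    rw [hset, Set.ncard_empty]
    exact Even.zero
  have hmove : ∀ x1 x2 : ℤ, (∀ b ∈ γ, b.1 2 = x2 → b.2 ≠ 0) → ∀ u : ℤ,
      (![u, x1, x2] : Site) ∈ Bel (γ : Set Bond) := by
    intro x1 x2 hno
    have hst : ∀ u : ℤ, ((![u, x1, x2] : Site) ∈ Bel (γ : Set Bond) ↔
        (![u + 1, x1, x2] : Site) ∈ Bel (γ : Set Bond)) := by
      intro u
      have hb : ((![u, x1, x2], 0) : Bond) ∉ bd (Bel (γ : Set Bond)) := by
        rw [hbd]
        intro hb
        exact hno _ hb (by simp) rfl
      rw [mem_bd, not_not] at hb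
      have e : hi ((![u, x1, x2], 0) : Bond) = ![u + 1, x1, x2] := by
        funext i
        fin_cases i <;> simp [hi, ev, Pi.single_apply]
      rw [e] at hb
      exact hb
    refine int_int_walk ((N : ℤ) + 1) ?_ ?_ ?_
    · apply hnone
      left
      simp only [Matrix.cons_val_zero]
      rw [abs_of_nonneg (by positivity)]; omega
    · intro t ht
      rw [← hst t]; exact ht
    · intro t ht
      have := hst (t - 1)
      rw [sub_add_cancel] at this
      rw [this]; exact ht
  have hsite : ∀ x : Site, x = ![x 0, x 1, x 2] := by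
    intro x
    funext i
    fin_cases i <;> rfl
  have hout : ∀ x, x ∉ Vb N → x ∈ Bel (γ : Set Bond) := by
    intro x hx
    by_cases h01 : (N : ℤ) < |x 0| ∨ (N : ℤ) < |x 1| ∨ x 2 < -(N : ℤ)
    · exact hnone x h01
    · have hx2 : (N : ℤ) < x 2 := by
        by_contra hcon
        apply hx
        rw [mem_Vb]
        have e2 : |x 2| ≤ N := by rw [abs_le]; omega
        intro i
        fin_cases i
        · simp only [Fin.zero_eta]; omega
        · simp only [Fin.mk_one]; omega
        · simpa using e2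
      rw [hsite x]
      refine hmove _ _ ?_ _
      intro b hb hbx hb0
      have := mem_BV.1 (hγ hb)
      rw [mem_Vb, mem_Vb] at this
      rcases this with h | h
      · have h3 := h 2
        change |b.1 2| ≤ _ at h3
        rw [abs_le] at h3
        omega
      · have h3 := h 2
        rw [hi_ne (by rw [hb0]; decide)] at h3
        change |b.1 2| ≤ _ at h3
        rw [abs_le] at h3
        omega
  refine ⟨(Vb N).filter (fun x => x ∉ Bel (γ : Set Bond)), Finset.filter_subset _ _, ?_, ?_⟩
  · have hF : (((Vb N).filter (fun x => x ∉ Bel (γ : Set Bond)) : Finset Site) : Set Site) =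
        (Bel (γ : Set Bond))ᶜ := by
      ext x
      simp only [Finset.coe_filter, Set.mem_ofPred_eq, Set.mem_compl_iff]
      constructor
      · exact fun h => h.2
      · intro h
        exact ⟨by by_contra hc; exact h (hout x hc), h⟩
    rw [hF, bd_compl, hbd]
  · have key : ∀ x ∈ (Vb N).filter (fun x => x ∉ Bel (γ : Set Bond)), ∃ bc : Bond × Bond,
        bc ∈ γ ×ˢ γ ∧ bc.1.1 0 = x 0 ∧ bc.1.1 1 = x 1 ∧ bc.2.1 2 = x 2 := by
      intro x hx
      rw [Finset.mem_filter] at hx
      have h3 : ∃ b ∈ γ, b.1 0 = x 0 ∧ b.1 1 = x 1 := by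
        by_contra hcon
        push Not at hcon
        apply hx.2
        have hset : {b : Bond | b ∈ (γ : Set Bond) ∧ b.2 = 2 ∧ b.1 0 = x 0 ∧ b.1 1 = x 1 ∧
            b.1 2 < x 2} = ∅ := by
          rw [Set.eq_empty_iff_forall_notMem]
          rintro b ⟨hb, hb2, hb0, hb1, hb3⟩
          exact hcon b hb hb0 hb1
        change Even (Set.ncard _)
        rw [hset, Set.ncard_empty]
        exact Even.zero
      have h4 : ∃ c ∈ γ, c.1 2 = x 2 := by
        by_contra hcon
        push Not at hcon
        apply hx.2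
        rw [hsite x]
        exact hmove _ _ (fun b hb hb2 => absurd hb2 (hcon b hb)) _
      obtain ⟨b, hb, hb0, hb1⟩ := h3
      obtain ⟨c, hc, hc2⟩ := h4
      exact ⟨(b, c), Finset.mem_product.2 ⟨hb, hc⟩, hb0, hb1, hc2⟩
    choose! f hf using key
    have := Finset.card_le_card_of_injOn f (fun x hx => (hf x hx).1) (fun x hx y hy hxy => ?_)
      (t := γ ×ˢ γ)
    · rw [Finset.card_product] at this
      rw [sq]
      exact this
    · have h3 := (hf x hx).2
      have h4 := (hf y hy).2
      rw [hxy] at h3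
      rw [hsite x, hsite y, ← h3.1, ← h3.2.1, ← h3.2.2, ← h4.1, ← h4.2.1, ← h4.2.2]

end Pool.ISH
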